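import Pool.Agent.Helper492_MA.Fit

/-!
# Finitary automorphism groups of modules over commutative rings

`C` is any class of groups with the closure properties `ClosedE C` which contains the solvable groups. All
this is published for the class of the groups that satisfy the K- and L-theoretic Farrell-Jones conjecture
with coefficients and finite wreath products. This class contains the groups `GLₘ(ℚ)` and `GLₘ(𝔽_p(t))`
(Rüping), so that `Lin C D` holds for every domain `D` which embeds into an algebraic extension of `ℚ` or of
`𝔽_p(t)`.

(1) Let `M` be any module over a commutative ring `R` and let `A` be an `R`-algebra which acts on `M` (for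
example `A = R`). If for every weakly associated prime `Q` of `M` the domain `R/Q` embeds into an algebraic
extension of a field `F` with `GLₘ(F)` in `C` for all `m`, then the group `FAut_A(M)` of the automorphisms
`g` of the `A`-module `M` for which `(g - 1)M` is contained in a finitely generated `R`-submodule is in `C`.
If `M` is finitely generated over `R`, this group is `Aut_A(M)`.

(2) If `GLₙ(R/Q)` is in `C` for all minimal primes `Q` of the commutative ring `R`, then `GLₙ(R)` is in `C`.

(3) If `B` is a domain with finite proper quotients, such as `ℤ` or `𝔽_p[t]`, and `GLₘ` of its fraction field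
is in `C` for all `m`, then `C` contains the groups of (1) for all commutative rings `R` integral over `B`,
and all `A`, `M`.

(4) `C` contains the groups `FAut_R(M)` for all modules over all commutative rings if and only if it
contains `GLₘ(k(x₁,…,x_d))` for all `m` and `d` and all prime fields `k`.

Outline of the proof of (1). The group is the directed union of the subgroups of the elements `g` with
`(g - 1)M` in a given finitely generated submodule `M'`, and the kernel of the action of such a subgroup on
`M'` is abelian. So let `M` be finitely generated and `A = R`. Then the group is the directed union of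
groups which embed into automorphism groups of finitely generated modules `N` over finitely generated
subrings `R₀` of `R`, with `N` contained in `M`.
Let `P` be maximal among the annihilators of the nonzero elements of `N` and let `K` be the submodule
annihilated by `P`. It is torsion-free over `R₀/P`, so that `Aut(K)` embeds into `GLᵣ` of the fraction field
of `R₀/P`; the associated primes of `N/K` are associated primes of `N`; and the kernel of
`Aut(N) → Aut(K) × Aut(N/K)` is abelian. Now use noetherian induction. The associated primes of `N` are the
contractions of weakly associated primes of `M`.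
-/

set_option autoImplicit false

namespace Pool.Agent.Results.MP_9d1ffa_al.ModuleAutomorphisms

open Pool.Agent.Y110.FJ Pool.Agent.Helper492_MA

theorem result (C : ∀ (G : Type) [Group G], Prop) (hC : ClosedE C)
    (hS : ∀ (S : Type) [Group S], Group.IsSolvable S → C S) :
    (∀ (R A M : Type) [CommRing R] [Ring A] [Algebra R A] [AddCommGroup M] [Module R M] [Module A M]
      [IsScalarTower R A M], (∀ Q ∈ wAss R M, Lin C (R ⧸ Q)) →
        C (FAut R A M) ∧ (Module.Finite R M → C (M ≃ₗ[A] M))) ∧
    (∀ (R : Type) [CommRing R] (n : ℕ), (∀ Q ∈ minimalPrimes R, C (GL (Fin n) (R ⧸ Q))) →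
      C (GL (Fin n) R)) ∧
    (∀ (B R A M : Type) [CommRing B] [IsDomain B] [Ring.HasFiniteQuotients B] [CommRing R]
      [Algebra B R] [Algebra.IsIntegral B R] [Ring A] [Algebra R A] [AddCommGroup M] [Module R M]
      [Module A M] [IsScalarTower R A M], (∀ m : ℕ, C (GL (Fin m) (FractionRing B))) →
        C (FAut R A M) ∧ (Module.Finite R M → C (M ≃ₗ[A] M))) ∧
    ((∀ (R M : Type) [CommRing R] [AddCommGroup M] [Module R M], C (FAut R R M)) ↔
      (∀ d m : ℕ, C (GL (Fin m) (FractionRing (MvPolynomial (Fin d) ℚ)))) ∧
      ∀ p : ℕ, Fact p.Prime → ∀ d m : ℕ,
        C (GL (Fin m) (FractionRing (MvPolynomial (Fin d) (ZMod p))))) := by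
  refine ⟨?_, ?_, ?_, ?_, ?_⟩
  · intro R A M _ _ _ _ _ _ _ h
    exact ⟨faut_lin hC hS h, fun _ => aut_lin (R := R) hC hS h⟩
  · intro R _ n h
    exact gl_main hC hS n h
  · intro B R A M _ _ _ _ _ _ _ _ _ _ _ _ h
    have h1 : ∀ Q ∈ wAss R M, Lin C (R ⧸ Q) := by
      rintro Q ⟨x, hx⟩
      exact lin_int (B := B) (R := R) hC h Q hx.1.1
    exact ⟨faut_lin hC hS h1, fun _ => aut_lin (R := R) hC hS h1⟩
  · intro h
    have h1 : ∀ (F : Type) [Field F] (m : ℕ), C (GL (Fin m) F) := by
      intro F _ m
      refine gl_of_aut hC m ?_
      have h2 := h F (Fin m → F)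
      rw [faut_top] at h2
      let e : ((Fin m → F) ≃ₗ[F] (Fin m → F)) ≃*
        (⊤ : Subgroup ((Fin m → F) ≃ₗ[F] (Fin m → F))) := Subgroup.topEquiv.symm
      exact hC.base.of_injective _ _ e.toMonoidHom e.injective h2
    exact ⟨fun d m => h1 _ m, fun p hp d m => h1 _ m⟩
  · rintro ⟨h0, hp⟩ R M _ _ _
    refine faut_lin hC hS fun Q hQ => ?_
    obtain ⟨x, hx⟩ := hQ
    have := hx.1.1
    exact lin_all hC h0 (fun p hp' => hp p hp')

end Pool.Agent.Results.MP_9d1ffa_al.ModuleAutomorphisms
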